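import Pool.Agent.H176.DT.Stm2

/-! Project DT: monic polynomials of minimal degree over local rings (`min'`). -/

set_option autoImplicit false

universe u

namespace Pool.Agent.Y421.DT2

open Pool.Agent.H176.DT Pool.Agent.W418.LU2 Polynomial

variable {F : Type u} [Field F]

theorem nu_zero (A : Subring F) : NU A 0 := fun h => h.1 rfl

theorem nu_mul {A : Subring F} {a b : F} (hb : b ∈ A) (h : NU A a) : NU A (a * b) := by
  rintro ⟨h1, h2⟩
  refine h ⟨left_ne_zero_of_mul h1, ?_⟩
  have e : a⁻¹ = b * (a * b)⁻¹ := by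
    have h3 := left_ne_zero_of_mul h1
    have h4 := right_ne_zero_of_mul h1
    field_simp
  rw [e]
  exact A.mul_mem hb h2

theorem nu_sub {A : Subring F} (hA : Loc A) {a b : F} (ha : a ∈ A) (h1 : NU A a)
    (h2 : NU A b) : NU A (a - b) := by
  rintro ⟨h3, h4⟩
  have hx : a * (a - b)⁻¹ ∈ A := A.mul_mem ha h4
  rcases hA _ hx with ⟨h5, h6⟩ | ⟨h5, h6⟩
  · exact nu_mul h4 h1 ⟨h5, h6⟩
  · have e : 1 - a * (a - b)⁻¹ = b * (-(a - b)⁻¹) := by
      field_simp
      ring
    rw [e] at h5 h6
    exact nu_mul (A.neg_mem h4) h2 ⟨h5, h6⟩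

theorem min' : S2_min.{u} := by
  classical
  intro F _ A P hA hPA hP t ht g hg hgt
  have hex : ∃ n : ℕ, ∃ f : P[X], f.Monic ∧ NU A (eval₂ P.subtype t f) ∧ f.natDegree = n :=
    ⟨_, g, hg, hgt, rfl⟩
  obtain ⟨f, hf, hft, hn⟩ := Nat.find_spec hex
  have hmin : ∀ f' : P[X], f'.Monic → NU A (eval₂ P.subtype t f') →
      f.natDegree ≤ f'.natDegree := by
    intro f' h1 h2
    rw [hn]
    exact Nat.find_min' hex ⟨f', h1, h2, rfl⟩
  have hmem : ∀ h : P[X], eval₂ P.subtype t h ∈ A := by
    intro h
    rw [eval₂_eq_sum_range]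
    exact A.sum_mem fun i _ => A.mul_mem (hPA (h.coeff i).2) (A.pow_mem ht i)
  refine ⟨f, hf, ?_, hft, ?_⟩
  · by_contra h0
    have h1 : f = 1 := hf.natDegree_eq_zero.1 (by omega)
    rw [h1, eval₂_one] at hft
    exact hft ⟨one_ne_zero, by rw [inv_one]; exact A.one_mem⟩
  · have key : ∀ (n : ℕ) (h : P[X]), h.support.card = n → h.degree < f.degree →
        NU A (eval₂ P.subtype t h) → ∀ i, NU A (h.coeff i : F) := by
      intro n
      induction n using Nat.strong_induction_on with
      | _ n ih =>
        intro h hc hd hh i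
        by_cases h0 : h = 0
        · rw [h0, coeff_zero]
          exact nu_zero A
        have hlead : NU A (h.leadingCoeff : F) := by
          rintro ⟨h1, h2⟩
          have h3 := hP _ h.leadingCoeff.2 h1 h2
          set c : P := ⟨_, h3⟩ with hcdef
          have hc1 : c * h.leadingCoeff = 1 := by
            apply Subtype.ext
            show (h.leadingCoeff : F)⁻¹ * (h.leadingCoeff : F) = 1
            exact inv_mul_cancel₀ h1
          have hm : (C c * h).Monic := by
            unfold Monic
            rw [leadingCoeff_mul', leadingCoeff_C, hc1]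
            rw [leadingCoeff_C, hc1]
            exact one_ne_zero
          have h4 := hmin _ hm (by
            rw [eval₂_mul, eval₂_C, mul_comm]
            exact nu_mul (hPA c.2) hh)
          have h5 : (C c * h).natDegree ≤ h.natDegree := natDegree_C_mul_le c h
          have h6 : h.natDegree < f.natDegree := natDegree_lt_natDegree h0 hd
          omega
        have hev : NU A (eval₂ P.subtype t h.eraseLead) := by
          rw [← self_sub_C_mul_X_pow, eval₂_sub, eval₂_mul, eval₂_C, eval₂_X_pow]
          exact nu_sub hA (hmem h) hh (nu_mul (A.pow_mem ht _) hlead)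
        have h7 := ih _ (by rw [← hc]; exact eraseLead_support_card_lt h0) h.eraseLead rfl
          (lt_of_le_of_lt (eraseLead_degree_le) hd) hev i
        by_cases hi : i = h.natDegree
        · rw [hi]
          exact hlead
        · rw [eraseLead_coeff, if_neg hi] at h7
          exact h7
    exact fun h => key _ h rfl

end Pool.Agent.Y421.DT2
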